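import Mathlib
import Pool.Agent.N594.CT.Stm

/-!
# CT/SUB: subsets of the vertices
-/

set_option autoImplicit false

open Finset
open scoped Classical

namespace Pool.Agent.N545.CT.SUB

open Pool.Agent.N594.CT

/-- images of images, for all decision procedures -/
lemma img {α β γ : Type} {D1 : DecidableEq β} {D2 : DecidableEq γ} (g : β → γ) (f : α → β)
    (s : Finset α) : Finset.image g (@Finset.image α β D1 f s) = Finset.image (g ∘ f) s :=
  Finset.image_image

theorem main : Pool.Agent.N594.CT.S_SUB := by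
  intro V _ _ H t k q W Λ hW hU hC hG
  have hne : Nonempty {v // v ∈ W} := by
    obtain ⟨w, hw⟩ := hW
    exact ⟨⟨w, hw⟩⟩
  set G : Finset {v // v ∈ W} → Prop := fun Z => H (Z.image Subtype.val) with hGdef
  have h1 : Unif t G := by
    intro Z hZ
    rw [← hU _ hZ, Finset.card_image_of_injective _ Subtype.val_injective]
  have h2 : Cls t k q G := by
    intro σ
    obtain ⟨J, hJ, hI⟩ := hC (Subtype.val ∘ σ)
    refine ⟨J, hJ, fun e he het => ?_⟩
    have h3 := hI e he het
    rw [hGdef]
    show ¬ H (Finset.image Subtype.val _)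
    rwa [img]
  have h3 := hG {v // v ∈ W} G h1 h2
  unfold den at h3
  have hcard : (Fintype.card {v // v ∈ W} : ℝ) = W.card := by
    rw [Fintype.card_coe]
  have hW0 : (0 : ℝ) < (W.card : ℝ) ^ t := by
    have : (0 : ℝ) < W.card := by exact_mod_cast hW.card_pos
    positivity
  rw [hcard, div_le_iff₀ hW0] at h3
  refine le_trans ?_ h3
  have h4 : (univ.filter fun x : Fin t → V => (∀ i, x i ∈ W) ∧ H (univ.image x)).card ≤
      E t G := by
    unfold E
    refine Finset.card_le_card_of_surjOn (fun y : Fin t → {v // v ∈ W} => fun i => (y i).val) ?_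
    intro x hx
    rw [Finset.mem_coe, Finset.mem_filter] at hx
    obtain ⟨-, hxW, hxH⟩ := hx
    refine ⟨fun i => ⟨x i, hxW i⟩, ?_, rfl⟩
    rw [Finset.mem_coe, Finset.mem_filter]
    refine ⟨Finset.mem_univ _, ?_⟩
    show H (Finset.image Subtype.val _)
    rw [img]
    exact hxH
  exact_mod_cast h4

end Pool.Agent.N545.CT.SUB
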